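import Pool.Agent.Helper81.Sync.Graph

/-!
MP_a6df80_lc, Q1 (the answer is no, in ZFC, at degree `ℵ₁`): on every set of cardinality `ℵ₁` there
is a synchronizing permutation group which is not 2-homogeneous, namely the automorphism group of a
graph which is transitive on vertices, on arcs and on ordered pairs of distinct non-adjacent
vertices, such that every endomorphism of the graph or of its complement is an automorphism.
-/

set_option autoImplicit false

namespace Pool.Agent.Results.MP_a6df80_lc.RankThreeAlephOne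

universe u

/-- The transformation monoid generated by a permutation group `G` and a map `f`. -/
def generated {Ω : Type u} (G : Subgroup (Equiv.Perm Ω)) (f : Function.End Ω) :
    Submonoid (Function.End Ω) :=
  Submonoid.closure ({f} ∪ {k | ∃ g ∈ G, ∀ x, k x = g x})

/-- A synchronizing transformation monoid: any two points are identified by some member. -/
def SyncMonoid {Ω : Type u} (M : Submonoid (Function.End Ω)) : Prop :=
  ∀ v w : Ω, ∃ h ∈ M, h v = h w

/-- A synchronizing permutation group. -/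
def SyncGroup {Ω : Type u} (G : Subgroup (Equiv.Perm Ω)) : Prop :=
  ∀ f : Ω → Ω, ¬ Function.Injective f → SyncMonoid (generated G f)

/-- A 2-homogeneous permutation group: transitive on the 2-element subsets. -/
def TwoHomogeneous {Ω : Type u} (G : Subgroup (Equiv.Perm Ω)) : Prop :=
  ∀ s t : Finset Ω, s.card = 2 → t.card = 2 → ∃ g ∈ G, s.map g.toEmbedding = t

open Pool.Agent.Helper81.Sync

/-- The automorphism group. -/
private def autG {Ω : Type u} (Γ : SimpleGraph Ω) : Subgroup (Equiv.Perm Ω) where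
  carrier := {g | IsAut Γ g}
  mul_mem' := by
    intro g h hg hh v w
    rw [hh v w, hg (h v) (h w)]
    rfl
  one_mem' := fun v w => Iff.rfl
  inv_mem' := by
    intro g hg v w
    have h := hg (g⁻¹ v) (g⁻¹ w)
    have e : ∀ x, g (g⁻¹ x) = x := fun x => g.apply_symm_apply x
    rw [e, e] at h
    exact h.symm

private theorem mem_autG {Ω : Type u} {Γ : SimpleGraph Ω} {g : Equiv.Perm Ω} :
    g ∈ autG Γ ↔ ∀ v w, Γ.Adj v w ↔ Γ.Adj (g v) (g w) := Iff.rfl

private theorem two_colours {Ω : Type u} (Γ : SimpleGraph Ω) {v w : Ω} (h : v ≠ w) :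
    Γ.Adj v w ∨ Γᶜ.Adj v w := by
  by_cases h1 : Γ.Adj v w
  · exact Or.inl h1
  · exact Or.inr ((SimpleGraph.compl_adj Γ v w).2 ⟨h, h1⟩)

/-- The group is synchronizing, one of the two colours of the given pair being `A`. -/
private theorem sync_aux {Ω : Type u} {Γ A B : SimpleGraph Ω}
    (hAB : ∀ v w, v ≠ w → A.Adj v w ∨ B.Adj v w)
    (hA : ∀ v w v' w', A.Adj v w → A.Adj v' w' →
      ∃ g : Equiv.Perm Ω, IsAut Γ g ∧ g v = v' ∧ g w = w')
    (hB : ∀ v w v' w', B.Adj v w → B.Adj v' w' →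
      ∃ g : Equiv.Perm Ω, IsAut Γ g ∧ g v = v' ∧ g w = w')
    (hom : ∀ f : Ω → Ω, (∀ v w, A.Adj v w → A.Adj (f v) (f w)) → Function.Injective f)
    {f : Ω → Ω} (hf : ¬ Function.Injective f) {v w : Ω} (hvw : A.Adj v w) :
    ∃ h ∈ generated (autG Γ) f, h v = h w := by
  by_contra hcon
  push Not at hcon
  have hgM : ∀ g : Equiv.Perm Ω, IsAut Γ g →
      ((fun x => g x : Ω → Ω) : Function.End Ω) ∈ generated (autG Γ) f :=
    fun g hg => Submonoid.subset_closure (Or.inr ⟨g, hg, fun _ => rfl⟩)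
  have hfM : (f : Function.End Ω) ∈ generated (autG Γ) f :=
    Submonoid.subset_closure (Or.inl rfl)
  have h1 : ∀ x y, A.Adj x y → ∀ h ∈ generated (autG Γ) f, h x ≠ h y := by
    intro x y hxy h hh heq
    obtain ⟨g, hg, hgv, hgw⟩ := hA v w x y hvw hxy
    apply hcon _ ((generated (autG Γ) f).mul_mem hh (hgM g hg))
    show h (g v) = h (g w)
    rw [hgv, hgw]
    exact heq
  apply hf
  apply hom
  intro x y hxy
  have h2 : f x ≠ f y := h1 x y hxy f hfM
  rcases hAB _ _ h2 with h3 | h3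
  · exact h3
  exfalso
  apply hf
  intro a b hab
  by_contra hne
  rcases hAB a b hne with h4 | h4
  · exact h1 a b h4 f hfM hab
  · obtain ⟨g, hg, hga, hgb⟩ := hB _ _ _ _ h3 h4
    apply h1 x y hxy _ ((generated (autG Γ) f).mul_mem
      ((generated (autG Γ) f).mul_mem hfM (hgM g hg)) hfM)
    show f (g (f x)) = f (g (f y))
    rw [hga, hgb]
    exact hab

private theorem sync_of_rich {Ω : Type u} {Γ : SimpleGraph Ω} (h : Rich Γ) :
    SyncGroup (autG Γ) := by
  intro f hf v w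
  by_cases hvw : v = w
  · exact ⟨1, Submonoid.one_mem _, by rw [hvw]⟩
  rcases two_colours Γ hvw with h1 | h1
  · refine sync_aux (A := Γ) (B := Γᶜ) (fun x y hxy => two_colours Γ hxy) h.arc h.arc' ?_ hf h1
    intro k hk
    obtain ⟨g, _, rfl⟩ := h.hom k hk
    exact g.injective
  · refine sync_aux (A := Γᶜ) (B := Γ) (fun x y hxy => (two_colours Γ hxy).symm) h.arc' h.arc
      ?_ hf h1
    intro k hk
    obtain ⟨g, _, rfl⟩ := h.hom' k hk
    exact g.injective

private theorem not_two_of_rich {Ω : Type u} {Γ : SimpleGraph Ω} (h : Rich Γ) :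
    ¬ TwoHomogeneous (autG Γ) := by
  classical
  intro h2
  obtain ⟨v, w, hvw⟩ := h.edge
  obtain ⟨v', w', hvw'⟩ := h.nonedge
  obtain ⟨g, hg, hmap⟩ := h2 {v, w} {v', w'} (Finset.card_pair hvw.ne) (Finset.card_pair hvw'.ne)
  have h3 : Γ.Adj (g v) (g w) := (hg v w).1 hvw
  have h4 : g v ∈ ({v', w'} : Finset Ω) := by
    rw [← hmap]
    exact Finset.mem_map.2 ⟨v, by simp, rfl⟩
  have h5 : g w ∈ ({v', w'} : Finset Ω) := by
    rw [← hmap]
    exact Finset.mem_map.2 ⟨w, by simp, rfl⟩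
  rw [Finset.mem_insert, Finset.mem_singleton] at h4 h5
  have h6 : ¬ Γ.Adj v' w' := ((SimpleGraph.compl_adj Γ v' w').1 hvw').2
  rcases h4 with h4 | h4 <;> rcases h5 with h5 | h5
  · rw [h4, h5] at h3; exact h3.ne rfl
  · rw [h4, h5] at h3; exact h6 h3
  · rw [h4, h5] at h3; exact h6 h3.symm
  · rw [h4, h5] at h3; exact h3.ne rfl

/-- On every set of cardinality `ℵ₁` there are a permutation group `G` and a graph `Γ` such that
`G` is synchronizing and not 2-homogeneous, `G` is the automorphism group of `Γ`, `G` is transitive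
on the points, on the ordered pairs of adjacent points and on the ordered pairs of distinct
non-adjacent points, and every map which preserves the edges of `Γ`, or those of the complement of
`Γ`, is a member of `G`. -/
theorem result {Ω : Type u} (hΩ : Cardinal.mk Ω = Cardinal.aleph 1) :
    ∃ (G : Subgroup (Equiv.Perm Ω)) (Γ : SimpleGraph Ω),
      SyncGroup G ∧ ¬ TwoHomogeneous G ∧
      (∀ g : Equiv.Perm Ω, g ∈ G ↔ ∀ v w, Γ.Adj v w ↔ Γ.Adj (g v) (g w)) ∧
      (∀ v v', ∃ g ∈ G, g v = v') ∧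
      (∃ v w, Γ.Adj v w) ∧ (∃ v w, Γᶜ.Adj v w) ∧
      (∀ v w v' w', Γ.Adj v w → Γ.Adj v' w' → ∃ g ∈ G, g v = v' ∧ g w = w') ∧
      (∀ v w v' w', Γᶜ.Adj v w → Γᶜ.Adj v' w' → ∃ g ∈ G, g v = v' ∧ g w = w') ∧
      (∀ f : Ω → Ω, (∀ v w, Γ.Adj v w → Γ.Adj (f v) (f w)) → ∃ g ∈ G, ∀ x, f x = g x) ∧
      (∀ f : Ω → Ω, (∀ v w, Γᶜ.Adj v w → Γᶜ.Adj (f v) (f w)) → ∃ g ∈ G, ∀ x, f x = g x) := by
  obtain ⟨Γ, h⟩ := rich_of_mk hΩ
  refine ⟨autG Γ, Γ, sync_of_rich h, not_two_of_rich h, fun g => mem_autG, ?_, h.edge, h.nonedge,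
    ?_, ?_, ?_, ?_⟩
  · intro v v'
    obtain ⟨g, hg, h1⟩ := h.point v v'
    exact ⟨g, hg, h1⟩
  · intro v w v' w' h1 h2
    obtain ⟨g, hg, h3⟩ := h.arc v w v' w' h1 h2
    exact ⟨g, hg, h3⟩
  · intro v w v' w' h1 h2
    obtain ⟨g, hg, h3⟩ := h.arc' v w v' w' h1 h2
    exact ⟨g, hg, h3⟩
  · intro f hf
    obtain ⟨g, hg, h1⟩ := h.hom f hf
    exact ⟨g, hg, fun x => congrFun h1 x⟩
  · intro f hf
    obtain ⟨g, hg, h1⟩ := h.hom' f hf
    exact ⟨g, hg, fun x => congrFun h1 x⟩

end Pool.Agent.Results.MP_a6df80_lc.RankThreeAlephOne
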